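import Mathlib

set_option autoImplicit false

namespace Pool.Agent.Results.MP_b34cfe_co.Counter

def capL : List (Fin 3 → ZMod 3) :=
  [![0, 1, 1], ![0, 2, 1], ![1, 0, 1], ![1, 1, 2], ![1, 2, 2], ![2, 0, 1], ![2, 1, 2], ![2, 2, 2]]

def seqL : List (Fin 3 → ZMod 3) := ![0, 0, 0] :: (capL ++ capL)

lemma cap_prop : ∀ a ∈ seqL, ∀ b ∈ seqL, ∀ c ∈ seqL, a + (b + c) = 0 → a = b ∧ b = c := by
  decide +kernel

lemma count_prop : ∀ a ∈ seqL, seqL.count a ≤ 2 := by decide +kernel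

lemma sum_prop : seqL.sum = 0 := by decide +kernel

theorem result :
    ¬ (∀ n t d : ℕ, 0 < n → 0 < t → 0 < d → ∀ l : ℕ, IsLeast {m : ℕ | 2 ^ d ≤ m ∧ ¬ m ∣ n} l →
      ∀ S : Multiset (Fin d → ZMod n), S.sum = 0 →
        ((t : ℤ) + 2 ^ d - 1) * n - l + 1 ≤ (Multiset.card S : ℤ) →
        ∃ T : Multiset (Fin d → ZMod n), T ≤ S ∧ Multiset.card T = n * t ∧ T.sum = 0) := by
  intro H
  have hl : IsLeast {m : ℕ | 2 ^ 3 ≤ m ∧ ¬ m ∣ 3} 8 :=
    ⟨⟨by norm_num, by norm_num⟩, fun m hm => hm.1⟩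
  obtain ⟨T, hT, hc, hs⟩ := H 3 1 3 (by norm_num) (by norm_num) (by norm_num) 8 hl
    (seqL : Multiset (Fin 3 → ZMod 3)) (by rw [Multiset.sum_coe]; exact sum_prop)
    (by rw [Multiset.coe_card]; norm_num [seqL, capL])
  obtain ⟨a, b, c, rfl⟩ := Multiset.card_eq_three.1 hc
  have ha : a ∈ seqL := Multiset.mem_coe.1 (Multiset.mem_of_le hT (by simp))
  have hb : b ∈ seqL := Multiset.mem_coe.1 (Multiset.mem_of_le hT (by simp))
  have hc' : c ∈ seqL := Multiset.mem_coe.1 (Multiset.mem_of_le hT (by simp))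
  have h0 : a + (b + c) = 0 := by simpa [add_assoc] using hs
  obtain ⟨rfl, rfl⟩ := cap_prop a ha b hb c hc' h0
  have h1 := Multiset.count_le_of_le a hT
  have h2 := count_prop a ha
  rw [Multiset.coe_count] at h1
  simp at h1
  omega

end Pool.Agent.Results.MP_b34cfe_co.Counter
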